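import Pool.Agent.Lib.MP_b5021c_nt.IfaceKV

/-!
# Board b5, stage 3, K EVEN without levels, row KV_FSR (PaperKV 6.1): `{S, R}` is a face
-/

namespace Pool.Agent.B5.KVH29

open scoped LaurentPolynomial
open Polynomial

/-- The functional on a sum of rays. -/
theorem clos_face {L : Type} [AddCommGroup L] (Rs : Set L) (S R : L) (lam : L →+ ℤ)
    (hS : lam S = 0) (hR : lam R = 0) (hT : ∀ T ∈ Rs, T ≠ S → T ≠ R → 0 < lam T) (x : L)
    (hx : x ∈ AddSubmonoid.closure Rs) :
    0 ≤ lam x ∧ (lam x = 0 → ∃ a b : ℕ, x = a • S + b • R) := by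
  induction hx using AddSubmonoid.closure_induction with
  | mem y hy =>
    by_cases h1 : y = S
    · subst h1
      exact ⟨hS.ge, fun _ => ⟨1, 0, by rw [one_nsmul, zero_nsmul, add_zero]⟩⟩
    by_cases h2 : y = R
    · subst h2
      exact ⟨hR.ge, fun _ => ⟨0, 1, by rw [one_nsmul, zero_nsmul, zero_add]⟩⟩
    have h3 := hT y hy h1 h2
    exact ⟨h3.le, fun h => absurd h h3.ne'⟩
  | zero => exact ⟨(map_zero lam).ge, fun _ => ⟨0, 0, by rw [zero_nsmul, zero_nsmul, add_zero]⟩⟩
  | add y z _ _ hy hz =>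
    rw [map_add]
    refine ⟨add_nonneg hy.1 hz.1, fun h => ?_⟩
    have h1 := hy.1
    have h2 := hz.1
    obtain ⟨a, b, hab⟩ := hy.2 (by omega)
    obtain ⟨a', b', hab'⟩ := hz.2 (by omega)
    refine ⟨a + a', b + b', ?_⟩
    rw [hab, hab', add_nsmul, add_nsmul]
    abel

/-- (KV_FSR) -/
theorem fsr (hRS : RaySpanS) (hE : E2S) : KvfS := by
  intro P L _ _ _ _ _ phi D eta S S1 R hD h2 hK hRr hne hOut hRU
  obtain ⟨-, hthin, -⟩ := hE ℤ P L phi D hD h2
  obtain ⟨lam0, hlam0, -⟩ := hD.st.2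
  have hspan := (hRS ℤ L D ⟨lam0, hlam0⟩ hthin).1
  have hSr : Ray D S := hK.mt.r0
  obtain ⟨hRs, hR0, lR, hlR, hlR2⟩ := hRr
  have hRr' : Ray D R := ⟨hRs, hR0, lR, hlR, hlR2⟩
  obtain ⟨nu, hnu, hnuS, hnuT⟩ := hK.n1
  have hlS : 0 < lR S := hlR2 S hSr.1 hSr.2.1 (Ne.symm hne)
  refine ⟨lR + (lR S) • nu, ?_, ?_, ?_⟩
  · rw [AddMonoidHom.add_apply, AddMonoidHom.smul_apply, hnuS, smul_eq_mul]
    ring
  · rw [AddMonoidHom.add_apply, AddMonoidHom.smul_apply, hnu R hRU, hlR, smul_zero, add_zero]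
  intro x hx hx0 hxS hxR hxSR
  set lam : L →+ ℤ := lR + (lR S) • nu with hlam
  have hlamS : lam S = 0 := by
    rw [hlam, AddMonoidHom.add_apply, AddMonoidHom.smul_apply, hnuS, smul_eq_mul]
    ring
  have hlamR : lam R = 0 := by
    rw [hlam, AddMonoidHom.add_apply, AddMonoidHom.smul_apply, hnu R hRU, hlR, smul_zero, add_zero]
  have hlamT : ∀ T ∈ {b | Ray D b}, T ≠ S → T ≠ R → 0 < lam T := by
    intro T hT hTS hTR
    rw [hlam, AddMonoidHom.add_apply, AddMonoidHom.smul_apply, smul_eq_mul]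
    have h3 := hlR2 T hT.1 hT.2.1 hTR
    have h4 := mul_nonneg hlS.le (hnuT T hT hTS)
    omega
  obtain ⟨n, hn, hmem⟩ := hspan x hx hx0
  obtain ⟨h5, h6⟩ := clos_face {b | Ray D b} S R lam hlamS hlamR hlamT (n • x) hmem
  rw [map_nsmul, nsmul_eq_mul] at h5 h6
  have hnz : (0 : ℤ) < (n : ℤ) := by exact_mod_cast hn
  by_contra hneg
  have h7 : (n : ℤ) * lam x = 0 := by
    have h8 : (n : ℤ) * lam x ≤ 0 := mul_nonpos_of_nonneg_of_nonpos hnz.le (not_lt.mp hneg)
    omega
  obtain ⟨a, b, hab⟩ := h6 h7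
  -- ports
  have hbin : ∀ {y : L}, y ∈ supp D → Bin phi y := fun hy => hD.bin _ hy
  have hport : ∀ {y : L}, y ∈ supp D → y ≠ 0 → ∃ i, phi y i = 1 := by
    intro y hy hy0
    by_contra hcon
    push Not at hcon
    apply hy0
    apply hD.inj
    rw [map_zero]
    funext i
    rcases hbin hy i with h9 | h9
    · exact h9
    · exact absurd h9 (hcon i)
  obtain ⟨i, hi⟩ := hport hSr.1 hSr.2.1
  obtain ⟨k, hk⟩ := hport hRs hR0
  have hRi : phi R i = 0 := by
    rcases hOut i with h9 | ⟨h9, -⟩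
    · exact h9
    · rw [hi] at h9
      exact absurd h9 one_ne_zero
  have hSk : phi S k = 0 := by
    rcases hOut k with h9 | ⟨h9, -⟩
    · rw [hk] at h9
      exact absurd h9 one_ne_zero
    · exact h9
  have e1 : (n : ℤ) * phi x i = a := by
    have h9 := congrFun (congrArg phi hab) i
    rw [map_nsmul, map_add, map_nsmul, map_nsmul, Pi.smul_apply, Pi.add_apply, Pi.smul_apply,
      Pi.smul_apply, hi, hRi, nsmul_eq_mul, nsmul_eq_mul, nsmul_zero, mul_one, add_zero] at h9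
    exact h9
  have e2 : (n : ℤ) * phi x k = b := by
    have h9 := congrFun (congrArg phi hab) k
    rw [map_nsmul, map_add, map_nsmul, map_nsmul, Pi.smul_apply, Pi.add_apply, Pi.smul_apply,
      Pi.smul_apply, hk, hSk, nsmul_eq_mul, nsmul_eq_mul, nsmul_eq_mul, mul_zero, mul_one,
      zero_add] at h9
    exact h9
  have hcanc : ∀ y : L, n • x = n • y → x = y := by
    intro y hy
    have h9 : (n : ℤ) • (x - y) = 0 := by
      rw [smul_sub, natCast_zsmul, natCast_zsmul, hy, sub_self]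
    rcases smul_eq_zero.mp h9 with h10 | h10
    · exact absurd h10 hnz.ne'
    · exact sub_eq_zero.mp h10
  rcases hbin hx i with hxi | hxi <;> rcases hbin hx k with hxk | hxk
  · rw [hxi, mul_zero] at e1
    rw [hxk, mul_zero] at e2
    have ha : a = 0 := by exact_mod_cast e1.symm
    have hb : b = 0 := by exact_mod_cast e2.symm
    apply hx0
    apply hcanc
    rw [hab, ha, hb]
    simp
  · rw [hxi, mul_zero] at e1
    rw [hxk, mul_one] at e2
    have ha : a = 0 := by exact_mod_cast e1.symm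
    have hb : b = n := by exact_mod_cast e2.symm
    apply hxR
    apply hcanc
    rw [hab, ha, hb]
    simp
  · rw [hxi, mul_one] at e1
    rw [hxk, mul_zero] at e2
    have ha : a = n := by exact_mod_cast e1.symm
    have hb : b = 0 := by exact_mod_cast e2.symm
    apply hxS
    apply hcanc
    rw [hab, ha, hb]
    simp
  · rw [hxi, mul_one] at e1
    rw [hxk, mul_one] at e2
    have ha : a = n := by exact_mod_cast e1.symm
    have hb : b = n := by exact_mod_cast e2.symm
    apply hxSR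
    apply hcanc
    rw [hab, ha, hb, nsmul_add]

end Pool.Agent.B5.KVH29
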